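import Pool.Agent.W957.CH.Stm2

/-! Project CH (MP_d275fd_co): from preladders to ladders. -/

set_option autoImplicit false

namespace Pool.Agent.W486.CH

open Finset Pool.Agent.W957.CH

lemma x_mono {T τ : ℕ} {x : ℕ → ℕ} (h : ∀ r, r + 1 < T → x r + τ < x (r + 1)) (i k : ℕ)
    (hk : i + k < T) : x i ≤ x (i + k) := by
  induction k with
  | zero => exact le_rfl
  | succ k ih =>
    have h1 := ih (by omega)
    have h2 := h (i + k) (by omega)
    have h3 : i + (k + 1) = i + k + 1 := by omega
    rw [h3]; omega

lemma y_dec {T : ℕ} {y : ℕ → ℕ} (h : ∀ r, r + 1 < T → y (r + 1) < y r) (i k : ℕ)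
    (hk : i + k < T) : y (i + k) + k ≤ y i := by
  induction k with
  | zero => exact le_rfl
  | succ k ih =>
    have h1 := ih (by omega)
    have h2 := h (i + k) (by omega)
    have h3 : i + (k + 1) = i + k + 1 := by omega
    rw [h3]; omega

open Classical in
/-- a block of rungs whose left ends span a clean interval -/
lemma clean_block {V : Type} [DecidableEq V] (X : Cx V) (n : ℕ) (c : ℕ → V) (U L T : ℕ)
    (y : ℕ → ℕ) (hL : 0 < L) (hU : ((range n).filter (fun i => ¬ Cl X n c i)).card ≤ U)
    (hy : ∀ r, r + 1 < T → y (r + 1) < y r) (hn : ∀ r, r < T → y r < n)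
    (hT : (U + 1) * L ≤ T) :
    ∃ b, b * L + L ≤ T ∧ ∀ i, y (b * L + (L - 1)) ≤ i → i ≤ y (b * L) → Cl X n c i := by
  by_contra hcon
  push Not at hcon
  have hidx : ∀ b, b ≤ U → b * L + L ≤ T := by
    intro b hb
    have h1 : (b + 1) * L ≤ (U + 1) * L := Nat.mul_le_mul_right _ (by omega)
    have h2 : (b + 1) * L = b * L + L := by ring
    omega
  choose! p hp1 hp2 hp3 using hcon
  have hmaps : ∀ b ∈ range (U + 1), p b ∈ (range n).filter (fun i => ¬ Cl X n c i) := by
    intro b hb
    have hb' := hidx b (by have := mem_range.1 hb; omega)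
    rw [mem_filter, mem_range]
    refine ⟨lt_of_le_of_lt (hp2 b hb') (hn _ (by omega)), hp3 b hb'⟩
  have hlt : ∀ b b', b < b' → b' ≤ U → p b' < p b := by
    intro b b' hbb hb'
    have e1 := hidx b (by omega)
    have e2 := hidx b' hb'
    have h1 := hp2 b' e2
    have h2 := hp1 b e1
    have h4 : b * L + L ≤ b' * L := by
      have h5 : (b + 1) * L ≤ b' * L := Nat.mul_le_mul_right _ hbb
      have h6 : (b + 1) * L = b * L + L := by ring
      omega
    obtain ⟨k, hk⟩ : ∃ k, b' * L = b * L + (L - 1) + (k + 1) := ⟨b' * L - (b * L + L), by omega⟩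
    have h3 := y_dec hy (b * L + (L - 1)) (k + 1) (by omega)
    rw [← hk] at h3
    omega
  have hinj : Set.InjOn p (range (U + 1)) := by
    intro b hb b' hb' heq
    have h1 := mem_range.1 (mem_coe.1 hb)
    have h2 := mem_range.1 (mem_coe.1 hb')
    by_contra hne
    rcases Nat.lt_or_gt_of_ne hne with h | h
    · have := hlt b b' h (by omega); omega
    · have := hlt b' b h (by omega); omega
  have hcard := card_le_card_of_injOn p hmaps hinj
  rw [card_range] at hcard
  omega

theorem t_LA2 (h : S_UC) : S_LA2 := by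
  classical
  intro V _ X n c τ σ T N x y K hS hP hT
  set U := UU X.m X.B.card with hUdef
  set L := (τ + 1) * (N + 2) with hLdef
  have hL : 0 < L := by positivity
  have hU : ((range n).filter (fun i => ¬ Cl X n c i)).card ≤ U := by
    have := h V X n c hS.ok hS.good
    convert this
  have hT' : (U + 1) * L ≤ T := le_trans (Nat.mul_le_mul_right _ (by omega)) hT
  obtain ⟨b, hb, hcl⟩ := clean_block X n c U L T y hL hU hP.yd (fun r hr => (hP.lt r hr).2) hT'
  set o := b * L with ho
  have hNL : ∀ r, r ≤ N → o + r * (τ + 1) < T := by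
    intro r hr
    have h1 : r * (τ + 1) ≤ N * (τ + 1) := Nat.mul_le_mul_right _ hr
    have h2 : N * (τ + 1) < L := by
      rw [hLdef]; nlinarith
    omega
  set q : ℕ → ℕ := fun r => o + r * (τ + 1) with hq
  have hqT : ∀ r, r ≤ N → q r < T := hNL
  have hqs : ∀ r, q (r + 1) = q r + (τ + 1) := by
    intro r; simp only [hq]; ring
  have hxs : ∀ r, r < N → x (q r) + τ < x (q (r + 1)) := by
    intro r hr
    have h1 := hqT (r + 1) (by omega)
    rw [hqs] at h1 ⊢
    have h2 := hP.xi (q r) (by omega)
    have h3 := x_mono hP.xi (q r + 1) τ (by omega)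
    have h4 : q r + (τ + 1) = q r + 1 + τ := by omega
    rw [h4]
    omega
  have hys : ∀ r, r < N → y (q (r + 1)) + τ < y (q r) := by
    intro r hr
    have h1 := hqT (r + 1) (by omega)
    rw [hqs] at h1 ⊢
    have h2 := y_dec hP.yd (q r) (τ + 1) (by omega)
    omega
  have hcly : ∀ i, y (q N) ≤ i → i ≤ y (q 0) → Cl X n c i := by
    intro i h1 h2
    refine hcl i ?_ ?_
    · have h3 : N * (τ + 1) < L := by rw [hLdef]; nlinarith
      obtain ⟨k, hk⟩ : ∃ k, o + (L - 1) = q N + k := ⟨L - 1 - N * (τ + 1), by
        simp only [hq]; omega⟩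
      rw [hk]
      have := y_dec hP.yd (q N) k (by omega)
      omega
    · have : q 0 = o := by simp [hq]
      rw [this] at h2; exact h2
  have hclx : ∀ i, x (q 0) ≤ i → i ≤ x (q N) → Cl X n c i := fun i h1 h2 =>
    hP.cx (q 0) (q N) (hqT 0 (Nat.zero_le _)) (hqT N le_rfl) i h1 h2
  rcases hP.sep with hsep | hsep
  · refine ⟨fun r => x (q r), fun r => y (q r), fun r => K (q r), ?_⟩
    exact {
      xi := hxs
      yd := hys
      xy := hsep _ _ (hqT N le_rfl) (hqT N le_rfl)
      yn := (hP.lt _ (hqT 0 (Nat.zero_le _))).2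
      cx := hclx
      cy := hcly
      sx := hP.sx _ _ (hqT N le_rfl) (hqT 0 (Nat.zero_le _))
      sy := hP.sy _ _ (hqT 0 (Nat.zero_le _)) (hqT N le_rfl)
      K := fun r hr => hP.K _ (hqT r hr) }
  · refine ⟨fun r => y (q (N - r)), fun r => x (q (N - r)), fun r => K (q (N - r)), ?_⟩
    exact {
      xi := by
        intro r hr
        have h1 := hys (N - r - 1) (by omega)
        have h2 : N - r - 1 + 1 = N - r := by omega
        have h3 : N - (r + 1) = N - r - 1 := by omega
        rw [h2] at h1
        show y (q (N - r)) + τ < y (q (N - (r + 1)))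
        rw [h3]; exact h1
      yd := by
        intro r hr
        have h1 := hxs (N - r - 1) (by omega)
        have h2 : N - r - 1 + 1 = N - r := by omega
        have h3 : N - (r + 1) = N - r - 1 := by omega
        rw [h2] at h1
        show x (q (N - (r + 1))) + τ < x (q (N - r))
        rw [h3]; exact h1
      xy := by
        show y (q (N - N)) < x (q (N - N))
        rw [Nat.sub_self]
        exact hsep _ _ (hqT 0 (Nat.zero_le _)) (hqT 0 (Nat.zero_le _))
      yn := by
        show x (q (N - 0)) < n
        exact (hP.lt _ (hqT N le_rfl)).1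
      cx := by
        intro i h1 h2
        have h2' : i ≤ y (q (N - N)) := h2
        rw [Nat.sub_self] at h2'
        exact hcly i h1 h2'
      cy := by
        intro i h1 h2
        have h1' : x (q (N - N)) ≤ i := h1
        rw [Nat.sub_self] at h1'
        exact hclx i h1' h2
      sx := by
        show 8 * (y (q (N - N)) - y (q (N - 0))) ≤ n
        rw [Nat.sub_self]
        exact hP.sy _ _ (hqT 0 (Nat.zero_le _)) (hqT N le_rfl)
      sy := by
        show 8 * (x (q (N - 0)) - x (q (N - N))) ≤ n
        rw [Nat.sub_self]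
        exact hP.sx _ _ (hqT N le_rfl) (hqT 0 (Nat.zero_le _))
      K := by
        intro r hr
        have h1 := hP.K _ (hqT (N - r) (by omega))
        exact ⟨h1.1, h1.2.2, h1.2.1⟩ }

end Pool.Agent.W486.CH
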